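import Pool.Agent.T4h70.LC.M5

/-!
# Relations `γ' = γ + v` inside one cyclotomic field `ℚ(ζ_q)`

We consider the pairs `(χ, ψ)` of primitive Dirichlet characters of the same modulus `q`, on average
over `X < q ≤ Y` with the weight `φ*(q) / q²`, where `K X ≤ Y ≤ X ^ (1 + η)` and `φ*(q)` is the number of
the primitive characters modulo `q`.  Their L-functions are Artin L-functions of the one field
`ℚ(ζ_q)`.  Let `v = v(q, χ)` be an arbitrary bounded function of the modulus and of the first
character.  If `v(q, χ)` is for every `q` and `χ` the ordinate of a zero of an L-function of `ℚ(ζ_q)`,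
which may be chosen depending on `χ` (a zero of `L(s, χ)` itself, of `L(s, χ²)`, of `ζ`, and so on),
then linear independence of the zeros implies that there are no zeros `1/2 + i γ` of `L(s, χ)` and
`1/2 + i γ'` of `L(s, ψ)` with `γ' = γ + v(q, χ)`.

Let `F = L(s + i v⁻, χ)` and `G = L(s + i v⁺, ψ)`, where `v⁺ = max(v, 0)` and `v⁻ = max(-v, 0)`, and let
`N` be the number of the zeros of `F` and `G` together with `T < Im s ≤ 2 T`, with multiplicity, where
`(log X)² ≤ T ≤ X ^ η`.  Unconditionally, and on average over the pairs: at least `0.423 N` zeros of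
one of them are simple, critical and not zeros of the other; at least `0.134 N` of them have
moreover an ordinate which no other zero of `F` or `G` has; the number of the distinct zeros of the
two is at least `0.7115 N`; and the number of the common zeros of `F` and `G`, that is of the pairs of
zeros `ρ` of `L(s, χ)` and `ρ'` of `L(s, ψ)` with `ρ' = ρ + i v(q, χ)`, even counted with the smaller of
the two multiplicities, is at most `0.2885 N` (the trivial bound is `N/2`).

Proof. The trace inequality for zeros (no hypothesis on zeros off the line) is applied to `F G`.  Its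
prime side is the sum of two prime sides of degree one, and of a mixed term.  A shift moves the
window of the prime side of degree one by at most `V`, and its mean square changes by a short window
only, which is small by the large sieve.  In the mixed term the average over `ψ` modulo `q` is
taken first, for each `χ`: it is a sum over the prime powers `n ≡ 1` modulo the divisors of `q`,
which is small in absolute value up to the length `q ^ (2 - ε)`, for every shift.
-/

open Complex

namespace Pool.Agent.Results.MP_0f5a55_nt.RelationsInOneField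

/-- The Dirichlet L-function of a character modulo `q` (the value for `q = 0` is never used). -/
noncomputable def Lfun (q : ℕ) (χ : DirichletCharacter ℂ q) : ℂ → ℂ :=
  if h : q = 0 then 0 else
    haveI : NeZero q := ⟨h⟩
    DirichletCharacter.LFunction χ

/-- The vertical shift `s ↦ F (s + i x)` of `F`. -/
noncomputable def shift (x : ℝ) (F : ℂ → ℂ) : ℂ → ℂ := fun s => F (s + x * I)

/-- The zeros of `F` in the open critical strip with ordinate in `(T, 2T]`. -/
def zeros (F : ℂ → ℂ) (T : ℝ) : Set ℂ :=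
  {s : ℂ | 0 < s.re ∧ s.re < 1 ∧ T < s.im ∧ s.im ≤ 2 * T ∧ F s = 0}

/-- The number of these zeros, counted with multiplicity. -/
noncomputable def N (F : ℂ → ℂ) (T : ℝ) : ℕ := ∑ᶠ s ∈ zeros F T, analyticOrderNatAt F s

/-- The zeros of `F` on the critical line which are simple and are not zeros of `G`. -/
def only (F G : ℂ → ℂ) (T : ℝ) : Set ℂ :=
  {s : ℂ | s ∈ zeros F T ∧ s.re = 1 / 2 ∧ analyticOrderNatAt F s = 1 ∧ G s ≠ 0}

/-- Those of them whose ordinate is not the ordinate of any other zero of `F` or `G`. -/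
def alone (F G : ℂ → ℂ) (T : ℝ) : Set ℂ :=
  {s : ℂ | s ∈ only F G T ∧ ∀ s' ∈ zeros F T ∪ zeros G T, s'.im = s.im → s' = s}

/-- The number of the common zeros of `F` and `G`, each counted with the smaller of the two
multiplicities. -/
noncomputable def common (F G : ℂ → ℂ) (T : ℝ) : ℕ :=
  ∑ᶠ s ∈ zeros F T ∩ zeros G T, min (analyticOrderNatAt F s) (analyticOrderNatAt G s)

/-- The primitive Dirichlet characters of conductor `q`. -/
def prim (q : ℕ) : Set (DirichletCharacter ℂ q) := {χ | χ.IsPrimitive}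

/-- The average of `f F G` over all pairs `(χ, ψ)` of primitive characters modulo `q`, summed over
`X < q ≤ Y` with the weight `φ*(q) / q²`, where `φ*(q)` is the number of the primitive characters
modulo `q`, `F = L(s + i v⁻, χ)` and `G = L(s + i v⁺, ψ)` with `v = v(q, χ)`. -/
noncomputable def avg (X Y : ℕ) (v : (q : ℕ) → DirichletCharacter ℂ q → ℝ)
    (f : (ℂ → ℂ) → (ℂ → ℂ) → ℕ) : ℝ :=
  ∑ q ∈ Finset.Ioc X Y, (1 / (q : ℝ) ^ 2) * ((∑ᶠ χ ∈ prim q, ∑ᶠ ψ ∈ prim q,
    (f (shift (max (-(v q χ)) 0) (Lfun q χ)) (shift (max (v q χ) 0) (Lfun q ψ)) : ℝ)) /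
      ((prim q).ncard : ℝ))

section bridge

open Pool.Agent.R321.RC Pool.Agent.R321.RD Pool.Agent.T4h70.LC

lemma prim_eq {q : ℕ} (hq : q ≠ 0) :
    prim q = ((PF q : Finset _) : Set (DirichletCharacter ℂ q)) := by
  ext χ
  rw [Finset.mem_coe, mem_PF hq]
  rfl

lemma finsum_prim {q : ℕ} (hq : q ≠ 0) (g : DirichletCharacter ℂ q → ℝ) :
    ∑ᶠ χ ∈ prim q, g χ = ∑ χ ∈ PF q, g χ := by
  rw [prim_eq hq, finsum_mem_coe_finset]

lemma avg_eq (X Y : ℕ) (v : (q : ℕ) → DirichletCharacter ℂ q → ℝ)
    (f : (ℂ → ℂ) → (ℂ → ℂ) → ℕ) :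
    avg X Y v f = avgB X Y (fun z => (f (F1 (fun p => v p.1 p.2) z)
      (G1 (fun p => v p.1 p.2) z) : ℝ)) := by
  unfold avg
  rw [avgB_eq]
  refine Finset.sum_congr rfl fun q hq => ?_
  have hq0 : q ≠ 0 := by
    rw [Finset.mem_Ioc] at hq
    omega
  have hc : (prim q).ncard = H385.phs q := by
    rw [prim_eq hq0, Set.ncard_coe_finset, PF_card hq0]
  rw [finsum_prim hq0, hc, Finset.sum_congr rfl fun χ _ => finsum_prim hq0 _]
  show _ = (1 / (q : ℝ) ^ 2) * (1 / (H385.phs q : ℝ)) * ∑ χ ∈ PF q, ∑ ψ ∈ PF q,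
    (f (shift (max (-(v q χ)) 0) (Lfun q χ)) (shift (max (v q χ) 0) (Lfun q ψ)) : ℝ)
  ring

end bridge

/-- **Relations `γ' = γ + v(q, χ)` between the zeros of `L(s, χ)` and `L(s, ψ)`, for characters of
the same modulus and the worst choice of `v` for each `χ`.** -/
theorem result : ∀ V : ℝ, 0 ≤ V → ∃ K η X₀ : ℝ, 1 ≤ K ∧ 0 < η ∧ 1 ≤ X₀ ∧
    ∀ (X Y : ℕ) (T : ℝ) (v : (q : ℕ) → DirichletCharacter ℂ q → ℝ),
      X₀ ≤ X → K * X ≤ Y → (Y : ℝ) ≤ (X : ℝ) ^ (1 + η) →
      (Real.log X) ^ 2 ≤ T → T ≤ (X : ℝ) ^ η →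
      (∀ (q : ℕ) (χ : DirichletCharacter ℂ q), |v q χ| ≤ V) →
      0 < avg X Y v (fun F G => N F T + N G T) ∧
      (∀ q : ℕ, X < q → ∀ χ ∈ prim q, ∀ ψ ∈ prim q,
        (zeros (shift (max (-(v q χ)) 0) (Lfun q χ)) T).Finite ∧
        (zeros (shift (max (v q χ) 0) (Lfun q ψ)) T).Finite) ∧
      0.423 * avg X Y v (fun F G => N F T + N G T) ≤
        avg X Y v (fun F G => (only F G T).ncard + (only G F T).ncard) ∧
      0.134 * avg X Y v (fun F G => N F T + N G T) ≤
        avg X Y v (fun F G => (alone F G T).ncard + (alone G F T).ncard) ∧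
      0.7115 * avg X Y v (fun F G => N F T + N G T) ≤
        avg X Y v (fun F G => (zeros F T ∪ zeros G T).ncard) ∧
      avg X Y v (fun F G => common F G T) ≤
        0.2885 * avg X Y v (fun F G => N F T + N G T) := by
  intro V hV
  obtain ⟨K, η, X0, hK, hη, hX0, h⟩ := Pool.Agent.T4h70.LC.mod_shift V hV
  refine ⟨K, η, X0, hK, hη, hX0, ?_⟩
  intro X Y T v hX hKX hY hT1 hT2 hv
  obtain ⟨b0, bf, b1, b2, b3, b4⟩ := h X Y T (fun p => v p.1 p.2) hX hKX hY hT1
    hT2 (fun p => hv _ _)
  simp only [avg_eq]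
  exact ⟨b0, fun q hq χ hχ ψ hψ => bf ⟨q, (χ, ψ)⟩ hq hχ hψ, b1, b2, b3, b4⟩

end Pool.Agent.Results.MP_0f5a55_nt.RelationsInOneField
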