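import Pool.Agent.T4h70.LB.Fin

/-!
# Relations `γ' = γ + v` between the zeros of `L(s, χ)` and `L(s, ψ)`, `v` chosen for each pair

We consider the pairs `(χ, ψ)` of primitive Dirichlet characters of conductors `X < q, r ≤ Y`,
weight `(q r)⁻²`, where `K X ≤ Y ≤ X ^ (1 + η)`, and an arbitrary bounded function `v = v(χ, ψ)` of the
pair.  The characters `χ`, `ψ` and `χ ψ` belong to a cyclotomic field.  If `v(χ, ψ)` is the ordinate
of a zero of `L(s, χ ψ)`, of `ζ`, or of any other L-function of this field, then linear independence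
of the zeros implies that there are no zeros `1/2 + i γ` of `L(s, χ)` and `1/2 + i γ'` of `L(s, ψ)` with
`γ' = γ + v(χ, ψ)`.  The theorem bounds the number of these pairs of zeros, on average over all
pairs of characters, for the worst possible choice of `v(χ, ψ)` for every pair, `|v| ≤ V`.

Let `F = L(s + i v⁻, χ)` and `G = L(s + i v⁺, ψ)`, where `v⁺ = max(v, 0)` and `v⁻ = max(-v, 0)`, and let
`N` be the number of the zeros of `F` and `G` together with `T < Im s ≤ 2 T`, with multiplicity, where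
`(log X)² ≤ T ≤ X ^ η`.  Unconditionally, and on average over the pairs: at least `0.423 N` zeros of
one of them are simple, critical and not zeros of the other; at least `0.134 N` of them have
moreover an ordinate which no other zero of `F` or `G` has; the number of the distinct zeros of the
two is at least `0.7115 N`; and the number of the common zeros of `F` and `G`, that is of the pairs of
zeros `ρ` of `L(s, χ)` and `ρ'` of `L(s, ψ)` with `ρ' = ρ + i v(χ, ψ)`, even counted with the smaller of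
the two multiplicities, is at most `0.2885 N` (the trivial bound is `N/2`).

Proof. The trace inequality for zeros (no hypothesis on zeros off the line) is applied to `F G`.  Its
prime side is the sum of two prime sides of degree one, and of a mixed term.  A shift moves the
window of the prime side of degree one by at most `V`, and its mean square changes by a short window
only.  The mixed term is the scalar product of two prime sums over the window; for a fixed second
character the large sieve for the first one, with the row sums of the Gram matrix of the functions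
`n ^ (i t)` over the window, bounds its mean square; the supremum over the shifts is bounded by the
integral of the derivative with respect to the shift.
-/

open Complex

namespace Pool.Agent.Results.MP_0f5a55_nt.ShiftDependingOnThePair

/-- The Dirichlet L-function of a character modulo `q` (the value for `q = 0` is never used). -/
noncomputable def Lfun (q : ℕ) (χ : DirichletCharacter ℂ q) : ℂ → ℂ :=
  if h : q = 0 then 0 else
    haveI : NeZero q := ⟨h⟩
    DirichletCharacter.LFunction χ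

/-- The vertical shift `s ↦ F (s + i x)` of `F`. -/
noncomputable def shift (x : ℝ) (F : ℂ → ℂ) : ℂ → ℂ := fun s => F (s + x * I)

/-- The zeros of `F` in the open critical strip with ordinate in `(T, 2T]`. -/
def zeros (F : ℂ → ℂ) (T : ℝ) : Set ℂ :=
  {s : ℂ | 0 < s.re ∧ s.re < 1 ∧ T < s.im ∧ s.im ≤ 2 * T ∧ F s = 0}

/-- The number of these zeros, counted with multiplicity. -/
noncomputable def N (F : ℂ → ℂ) (T : ℝ) : ℕ := ∑ᶠ s ∈ zeros F T, analyticOrderNatAt F s

/-- The zeros of `F` on the critical line which are simple and are not zeros of `G`. -/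
def only (F G : ℂ → ℂ) (T : ℝ) : Set ℂ :=
  {s : ℂ | s ∈ zeros F T ∧ s.re = 1 / 2 ∧ analyticOrderNatAt F s = 1 ∧ G s ≠ 0}

/-- Those of them whose ordinate is not the ordinate of any other zero of `F` or `G`. -/
def alone (F G : ℂ → ℂ) (T : ℝ) : Set ℂ :=
  {s : ℂ | s ∈ only F G T ∧ ∀ s' ∈ zeros F T ∪ zeros G T, s'.im = s.im → s' = s}

/-- The number of the common zeros of `F` and `G`, each counted with the smaller of the two
multiplicities. -/
noncomputable def common (F G : ℂ → ℂ) (T : ℝ) : ℕ :=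
  ∑ᶠ s ∈ zeros F T ∩ zeros G T, min (analyticOrderNatAt F s) (analyticOrderNatAt G s)

/-- The primitive Dirichlet characters of conductor `q`. -/
def prim (q : ℕ) : Set (DirichletCharacter ℂ q) := {χ | χ.IsPrimitive}

/-- The sum of `f F G / (q r)²` over all pairs of primitive Dirichlet characters `χ` of conductor `q`
and `ψ` of conductor `r`, `X < q, r ≤ Y`, where `F = L(s + i v⁻, χ)` and `G = L(s + i v⁺, ψ)` with
`v = v(χ, ψ)`. -/
noncomputable def avg (X Y : ℕ)
    (v : (q : ℕ) → DirichletCharacter ℂ q → (r : ℕ) → DirichletCharacter ℂ r → ℝ)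
    (f : (ℂ → ℂ) → (ℂ → ℂ) → ℕ) : ℝ :=
  ∑ q ∈ Finset.Ioc X Y, ∑ᶠ χ ∈ prim q, ∑ r ∈ Finset.Ioc X Y, ∑ᶠ ψ ∈ prim r,
    (f (shift (max (-(v q χ r ψ)) 0) (Lfun q χ)) (shift (max (v q χ r ψ) 0) (Lfun r ψ)) : ℝ) /
      ((q : ℝ) ^ 2 * (r : ℝ) ^ 2)

open Pool.Agent.R321.RC in
lemma finsum_prim {q : ℕ} (hq : q ≠ 0) (g : DirichletCharacter ℂ q → ℝ) :
    ∑ᶠ χ ∈ prim q, g χ = ∑ χ ∈ PF q, g χ := by
  have h : prim q = ((PF q : Finset _) : Set (DirichletCharacter ℂ q)) := by
    ext χ
    rw [Finset.mem_coe, mem_PF hq]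
    rfl
  rw [h, finsum_mem_coe_finset]

open Pool.Agent.R321.RC Pool.Agent.T4h70.LB in
lemma avg_eq (X Y : ℕ)
    (v : (q : ℕ) → DirichletCharacter ℂ q → (r : ℕ) → DirichletCharacter ℂ r → ℝ)
    (f : (ℂ → ℂ) → (ℂ → ℂ) → ℕ) :
    avg X Y v f = avg2 X Y (fun z => (f (F1 (fun z => v z.1.1 z.1.2 z.2.1 z.2.2) z)
      (G1 (fun z => v z.1.1 z.1.2 z.2.1 z.2.2) z) : ℝ)) := by
  unfold avg avg2 PS
  rw [Finset.sum_product, primSet_eq, Finset.sum_sigma]
  refine Finset.sum_congr rfl fun q hq => ?_
  have hq0 : q ≠ 0 := by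
    rw [Finset.mem_Ioc] at hq
    omega
  rw [finsum_prim hq0]
  refine Finset.sum_congr rfl fun χ _ => ?_
  rw [Finset.sum_sigma]
  refine Finset.sum_congr rfl fun r hr => ?_
  have hr0 : r ≠ 0 := by
    rw [Finset.mem_Ioc] at hr
    omega
  rw [finsum_prim hr0]
  refine Finset.sum_congr rfl fun ψ _ => ?_
  have e1 : shift (max (-(v q χ r ψ)) 0) (Lfun q χ) =
      F1 (fun z => v z.1.1 z.1.2 z.2.1 z.2.2) (⟨q, χ⟩, ⟨r, ψ⟩) := rfl
  have e2 : shift (max (v q χ r ψ) 0) (Lfun r ψ) =
      G1 (fun z => v z.1.1 z.1.2 z.2.1 z.2.2) (⟨q, χ⟩, ⟨r, ψ⟩) := rfl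
  rw [e1, e2]
  unfold w2
  simp only
  rw [div_eq_mul_inv, mul_inv, one_div, one_div]
  ring

/-- **Relations `γ' = γ + v(χ, ψ)` between the zeros of `L(s, χ)` and `L(s, ψ)`, for the worst
choice of `v` for each pair.** -/
theorem result : ∀ V : ℝ, 0 ≤ V → ∃ K η X₀ : ℝ, 1 ≤ K ∧ 0 < η ∧ 1 ≤ X₀ ∧
    ∀ (X Y : ℕ) (T : ℝ)
      (v : (q : ℕ) → DirichletCharacter ℂ q → (r : ℕ) → DirichletCharacter ℂ r → ℝ),
      X₀ ≤ X → K * X ≤ Y → (Y : ℝ) ≤ (X : ℝ) ^ (1 + η) →
      (Real.log X) ^ 2 ≤ T → T ≤ (X : ℝ) ^ η →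
      (∀ (q : ℕ) (χ : DirichletCharacter ℂ q) (r : ℕ) (ψ : DirichletCharacter ℂ r),
        |v q χ r ψ| ≤ V) →
      0 < avg X Y v (fun F G => N F T + N G T) ∧
      (∀ q r : ℕ, X < q → X < r → ∀ χ ∈ prim q, ∀ ψ ∈ prim r,
        (zeros (shift (max (-(v q χ r ψ)) 0) (Lfun q χ)) T).Finite ∧
        (zeros (shift (max (v q χ r ψ) 0) (Lfun r ψ)) T).Finite) ∧
      0.423 * avg X Y v (fun F G => N F T + N G T) ≤
        avg X Y v (fun F G => (only F G T).ncard + (only G F T).ncard) ∧
      0.134 * avg X Y v (fun F G => N F T + N G T) ≤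
        avg X Y v (fun F G => (alone F G T).ncard + (alone G F T).ncard) ∧
      0.7115 * avg X Y v (fun F G => N F T + N G T) ≤
        avg X Y v (fun F G => (zeros F T ∪ zeros G T).ncard) ∧
      avg X Y v (fun F G => common F G T) ≤
        0.2885 * avg X Y v (fun F G => N F T + N G T) := by
  intro V hV
  obtain ⟨K, η, X0, hK, hη, hX0, h⟩ := Pool.Agent.T4h70.LB.pairs_shift V hV
  refine ⟨K, η, X0, hK, hη, hX0, ?_⟩
  intro X Y T v hX hKX hY hT1 hT2 hv
  obtain ⟨b0, bf, b1, b2, b3, b4⟩ := h X Y T (fun z => v z.1.1 z.1.2 z.2.1 z.2.2) hX hKX hY hT1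
    hT2 (fun z => hv _ _ _ _)
  simp only [avg_eq]
  exact ⟨b0, fun q r hq hr χ hχ ψ hψ => bf (⟨q, χ⟩, ⟨r, ψ⟩) hq hχ hr hψ, b1, b2, b3, b4⟩

end Pool.Agent.Results.MP_0f5a55_nt.ShiftDependingOnThePair
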