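import Pool.Agent.T4h70.LI.Fin

/-!
# Relations `γ' = γ + v` between the zeros of `L(s, χ)` and `L(s, χ ψ)`, `v` any fixed number

Let `ψ` be a fixed primitive Dirichlet character of conductor `m` (the trivial character is allowed),
let `χ` be a primitive character of conductor `q` prime to `m`, and let `v` be a fixed real number,
not zero if `ψ` is trivial.  The characters `χ` and `χ ψ` belong to the field of the `q m`-th roots of
unity.  If `v` is an ordinate of a zero of `ζ`, or of any other L-function of this field, linear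
independence of the zeros of the field implies that there are no zeros `1/2 + i γ` of `L(s, χ)` and
`1/2 + i γ'` of `L(s, χ ψ)` with `γ' = γ + v`, which is a linear relation between three zeros.
The theorem bounds, for every fixed `v`, the number of these pairs of zeros.

The two functions are `F = L(s + i x, χ)` and `G = L(s + i y, χ ψ)` with fixed `x, y ≥ 0`,
`v = y - x`.  For `τ ≥ 0` let `h = (2 + τ) / (1 + τ)` and `c(h) = h/2 + cot(h/2)`.  Unconditionally, on
average over the `q` prime to `m` with `X < q ≤ Y` (`K X ≤ Y ≤ X ^ (1 + η)`, weight `q⁻²`) and the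
primitive `χ` modulo `q`, and for the zeros with `T < Im s ≤ 2 T`, where `T` may be any number with
`4 (log X)² ≤ T ≤ X ^ τ`: if `N` is the number of the zeros of `F` and `G` together, counted with
multiplicity, then at least `(2 - c(h) - ε) N` zeros of one of them are simple, critical and not
zeros of the other; at least `(5 - 3 c(h) - ε)/2 N` of them have moreover an ordinate which no other
zero of `F` or `G` has; the number of the distinct zeros of the two is at least `(3 - c(h) - ε)/2 N`;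
and the number of the common zeros of `F` and `G`, that is of the pairs `(ρ, ρ')` with `L(ρ, χ) = 0`,
`L(ρ', χ ψ) = 0` and `ρ' = ρ + i v`, even counted with the smaller of the two multiplicities, is at
most `(c(h) - 1 + ε)/2 N` (the trivial bound is `N/2`).

`c` is decreasing on `(0, 2]`, `c(2) ≤ 1.6421` (`τ = 0`), `c(3/2) ≤ 1.827` (`τ = 1`) and
`c(19/15) ≤ 1.9975` (`τ = 2.75`).

Proof. The trace inequality for zeros (no hypothesis on zeros off the line) is applied to the product
`L(s + i x, χ) L(s + i y, χ ψ)`, a function of degree two with the coefficients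
`χ(n) (n ^ (-i x) + ψ(n) n ^ (-i y)) Λ(n)`.  The sum `∑ |1 + ψ(n) n ^ (-i v)|² Λ(n) / n` is
asymptotic to `2 log x` because `L(1 + i v, ψ)` is finite and not zero.
-/

open Complex

namespace Pool.Agent.Results.MP_0f5a55_nt.ThreeTermRelations

/-- The Dirichlet L-function of a character modulo `q` (the value for `q = 0` is never used). -/
noncomputable def Lfun (q : ℕ) (χ : DirichletCharacter ℂ q) : ℂ → ℂ :=
  if h : q = 0 then 0 else
    haveI : NeZero q := ⟨h⟩
    DirichletCharacter.LFunction χ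

/-- The character `χ ψ` modulo `q m`. -/
noncomputable def twist {q m : ℕ} (χ : DirichletCharacter ℂ q) (ψ : DirichletCharacter ℂ m) :
    DirichletCharacter ℂ (q * m) :=
  DirichletCharacter.changeLevel (Nat.dvd_mul_right q m) χ *
    DirichletCharacter.changeLevel (Nat.dvd_mul_left m q) ψ

/-- The vertical shift `s ↦ F (s + i x)` of `F`. -/
noncomputable def shift (x : ℝ) (F : ℂ → ℂ) : ℂ → ℂ := fun s => F (s + x * I)

/-- The zeros of `F` in the open critical strip with ordinate in `(T, 2T]`. -/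
def zeros (F : ℂ → ℂ) (T : ℝ) : Set ℂ :=
  {s : ℂ | 0 < s.re ∧ s.re < 1 ∧ T < s.im ∧ s.im ≤ 2 * T ∧ F s = 0}

/-- The number of these zeros, counted with multiplicity. -/
noncomputable def N (F : ℂ → ℂ) (T : ℝ) : ℕ := ∑ᶠ s ∈ zeros F T, analyticOrderNatAt F s

/-- The zeros of `F` on the critical line which are simple and are not zeros of `G`. -/
def only (F G : ℂ → ℂ) (T : ℝ) : Set ℂ :=
  {s : ℂ | s ∈ zeros F T ∧ s.re = 1 / 2 ∧ analyticOrderNatAt F s = 1 ∧ G s ≠ 0}

/-- Those of them whose ordinate is not the ordinate of any other zero of `F` or `G`. -/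
def alone (F G : ℂ → ℂ) (T : ℝ) : Set ℂ :=
  {s : ℂ | s ∈ only F G T ∧ ∀ s' ∈ zeros F T ∪ zeros G T, s'.im = s.im → s' = s}

/-- The number of the common zeros of `F` and `G`, each counted with the smaller of the two
multiplicities. -/
noncomputable def common (F G : ℂ → ℂ) (T : ℝ) : ℕ :=
  ∑ᶠ s ∈ zeros F T ∩ zeros G T, min (analyticOrderNatAt F s) (analyticOrderNatAt G s)

/-- The primitive Dirichlet characters of conductor `q`. -/
def prim (q : ℕ) : Set (DirichletCharacter ℂ q) := {χ | χ.IsPrimitive}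

/-- The sum of `f q χ / q²` over the `q` prime to `m` with `X < q ≤ Y` and the primitive characters
`χ` modulo `q`. -/
noncomputable def fam (m X Y : ℕ) (f : (q : ℕ) → DirichletCharacter ℂ q → ℕ) : ℝ :=
  ∑ q ∈ (Finset.Ioc X Y).filter (fun q => Nat.Coprime q m),
    (1 / (q : ℝ) ^ 2) * ∑ᶠ χ ∈ prim q, (f q χ : ℝ)

/-- The constant `c(h) = h/2 + cot(h/2)`. -/
noncomputable def c (h : ℝ) : ℝ := h / 2 + Real.cot (h / 2)

lemma fam_eq (m X Y : ℕ) (f : (q : ℕ) → DirichletCharacter ℂ q → ℕ) :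
    fam m X Y f = H385.primFamM m X Y (fun q χ => (f q χ : ℝ)) := by
  unfold fam H385.primFamM
  refine Finset.sum_congr rfl fun q _ => ?_
  congr 1
  rw [← finsum_set_coe_eq_finsum_mem]
  rfl

/-- **Relations `γ' = γ + v` between the zeros of `L(s, χ)` and `L(s, χ ψ)` on average over `χ`.** -/
theorem result :
    (∀ (m : ℕ) (ψ : DirichletCharacter ℂ m), 1 ≤ m → ψ ∈ prim m →
      ∀ x y : ℝ, 0 ≤ x → 0 ≤ y → (ψ ≠ 1 ∨ x ≠ y) →
      ∀ τ ε : ℝ, 0 ≤ τ → 0 < ε →
      ∃ K η X₀ : ℝ, 1 ≤ K ∧ 0 < η ∧ 1 ≤ X₀ ∧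
      ∀ (X Y : ℕ) (T : ℝ), X₀ ≤ X → K * X ≤ Y → (Y : ℝ) ≤ (X : ℝ) ^ (1 + η) →
      4 * (Real.log X) ^ 2 ≤ T → T ≤ (X : ℝ) ^ τ →
      0 < fam m X Y (fun q χ =>
        N (shift x (Lfun q χ)) T + N (shift y (Lfun (q * m) (twist χ ψ))) T) ∧
      (∀ q : ℕ, X < q → Nat.Coprime q m → ∀ χ ∈ prim q, (zeros (shift x (Lfun q χ)) T).Finite ∧
        (zeros (shift y (Lfun (q * m) (twist χ ψ))) T).Finite) ∧
      (2 - c ((2 + τ) / (1 + τ)) - ε) *
          fam m X Y (fun q χ =>
            N (shift x (Lfun q χ)) T + N (shift y (Lfun (q * m) (twist χ ψ))) T) ≤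
        fam m X Y (fun q χ =>
          (only (shift x (Lfun q χ)) (shift y (Lfun (q * m) (twist χ ψ))) T).ncard +
          (only (shift y (Lfun (q * m) (twist χ ψ))) (shift x (Lfun q χ)) T).ncard) ∧
      (5 - 3 * c ((2 + τ) / (1 + τ)) - ε) / 2 *
          fam m X Y (fun q χ =>
            N (shift x (Lfun q χ)) T + N (shift y (Lfun (q * m) (twist χ ψ))) T) ≤
        fam m X Y (fun q χ =>
          (alone (shift x (Lfun q χ)) (shift y (Lfun (q * m) (twist χ ψ))) T).ncard +
          (alone (shift y (Lfun (q * m) (twist χ ψ))) (shift x (Lfun q χ)) T).ncard) ∧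
      (3 - c ((2 + τ) / (1 + τ)) - ε) / 2 *
          fam m X Y (fun q χ =>
            N (shift x (Lfun q χ)) T + N (shift y (Lfun (q * m) (twist χ ψ))) T) ≤
        fam m X Y (fun q χ =>
          (zeros (shift x (Lfun q χ)) T ∪
            zeros (shift y (Lfun (q * m) (twist χ ψ))) T).ncard) ∧
      fam m X Y (fun q χ =>
          common (shift x (Lfun q χ)) (shift y (Lfun (q * m) (twist χ ψ))) T) ≤
        (c ((2 + τ) / (1 + τ)) - 1 + ε) / 2 *
          fam m X Y (fun q χ =>
            N (shift x (Lfun q χ)) T + N (shift y (Lfun (q * m) (twist χ ψ))) T)) ∧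
    (∀ a b : ℝ, 0 < a → a ≤ b → b ≤ 2 → c b ≤ c a) ∧
    c 2 ≤ 1.6421 ∧ c (3 / 2) ≤ 1.827 ∧ c (19 / 15) ≤ 1.9975 := by
  refine ⟨?_, Pool.Agent.N880.HP.c2_main.2⟩
  intro m ψ hm hψ x y hx hy hxy τ ε hτ hε
  obtain ⟨K, η, X0, hK, hη, hX0, h⟩ :=
    Pool.Agent.T4h70.LI.ts_fin (by omega) ψ hψ hx hy hxy τ ε hτ hε
  refine ⟨K, η, X0, hK, hη, hX0, ?_⟩
  intro X Y T hX hKX hY hT1 hT2
  obtain ⟨b0, bf, b1, b2, b3, b4⟩ := h X Y T hX hKX hY hT1 hT2
  rw [fam_eq, fam_eq, fam_eq, fam_eq, fam_eq]
  exact ⟨b0, fun q hq hc χ hχ => bf q hq hc χ hχ, b1, b2, b3, b4⟩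

end Pool.Agent.Results.MP_0f5a55_nt.ThreeTermRelations
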